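import Pool.Agent.PBO.Stmts

/-!
# Squad PBO, module GTN: the norm of the value of an expression is determined by the expression
-/

namespace Pool.Agent.PBO.H99

open Pool.Agent.HF Pool.Agent.BO Pool.Agent.PBO
open Helper38_HF (Cx)

theorem addOn_zero {G : Type} [Group G] : AddOn (⊤ : Subgroup G) (fun _ => (0 : ℤ)) := by
  intro a _ b _
  simp

theorem norm_of_ind {G F : Type} [Group G] [NormedDivisionRing F] [IsUltrametricDist F]
    [CompleteSpace F] (s s' : G →* F) (hs : ∀ g, ‖s g‖ = 1) (hs' : ∀ g, ‖s' g‖ = 1)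
    (hc : ∀ (x x' : F) (H : Subgroup G) (a : Cx), Tp s s' x x' H a → ‖x‖ = ‖x'‖)
    {K : Subgroup G} {c : G → ℤ} {m : ℤ} {b : Cx} {x x' : F} (h : InD s s' K c m b x x') :
    ‖x‖ = ‖x'‖ := by
  rcases h with ⟨h1, h2⟩ | ⟨e, e', H, a, y, ht, -, -, -, -, h1, h2⟩
  · rw [h1, h2]
  · rw [h1, h2, norm_mul, norm_mul, hs, hs', hc e e' H a ht]

/-- GTN -/
theorem gtn (hCLM : ClmStmt) (hTPF : TpfStmt) : GtnStmt := by
  intro G F _ _ _ _ s s' hd hs hs' hgi x x' hx
  have hc := hCLM G F s s' hd hs hs' hgi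
  have hT := hTPF G F s s'
  have key : ∃ b : Cx, InD s s' ⊤ (fun _ => (0 : ℤ)) 0 b x x' := by
    induction hx with
    | of g => exact ⟨1, hT.unit (c := fun _ => (0 : ℤ)) (Subgroup.mem_top g) addOn_zero⟩
    | zero => exact ⟨1, Or.inl ⟨rfl, rfl⟩⟩
    | neg _ ih => obtain ⟨b, hb⟩ := ih; exact ⟨b, hT.neg hb⟩
    | add _ _ ih1 ih2 =>
      obtain ⟨b, hb⟩ := ih1
      obtain ⟨b', hb'⟩ := ih2
      exact ⟨b + b', hT.add addOn_zero hb hb'⟩
    | mul _ _ ih1 ih2 =>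
      obtain ⟨b, hb⟩ := ih1
      obtain ⟨b', hb'⟩ := ih2
      exact ⟨b * b', by simpa using hT.mul addOn_zero hb hb'⟩
    | @inv y y' _ ih =>
      obtain ⟨b, hb⟩ := ih
      have hn : ‖y‖ = ‖y'‖ := norm_of_ind s s' hs hs' hc hb
      by_cases h0 : y = 0
      · have h0' : y' = 0 := by
          rw [h0, norm_zero] at hn
          exact norm_eq_zero.1 hn.symm
        exact ⟨1, Or.inl ⟨by rw [h0, inv_zero], by rw [h0', inv_zero]⟩⟩
      · have h0' : y' ≠ 0 := by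
          intro h
          rw [h, norm_zero] at hn
          exact h0 (norm_eq_zero.1 hn)
        exact ⟨Cx.E b, by simpa using hT.inv addOn_zero hb h0 h0'⟩
  obtain ⟨b, hb⟩ := key
  exact norm_of_ind s s' hs hs' hc hb

end Pool.Agent.PBO.H99
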